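import Pool.Agent.Helper87_UT.Stmts

/-!
# UT, module CMP: samples at different vertices see a random graph
-/

set_option autoImplicit false

namespace Pool.Agent.UT.H50

open Finset
open Pool.Agent.Helper76_Bisect

section
open Classical

variable {n q : ℕ}

/-- the pair of vertices of the large graph -/
def pe (x : Fin q → Fin n) (p : Fin q × Fin q) : Fin n × Fin n :=
  if x p.1 < x p.2 then (x p.1, x p.2) else (x p.2, x p.1)

theorem pe_mem {x : Fin q → Fin n} (hx : Function.Injective x) {p : Fin q × Fin q}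
    (hp : p ∈ pairs q) : pe x p ∈ pairs n := by
  rw [mem_pairs] at hp ⊢
  unfold pe
  by_cases h : x p.1 < x p.2
  · rw [if_pos h]
    exact h
  · rw [if_neg h]
    exact lt_of_le_of_ne (not_lt.mp h) (fun h' => hp.ne' (hx h'))

theorem pe_inj {x : Fin q → Fin n} (hx : Function.Injective x) {p r : Fin q × Fin q}
    (hp : p ∈ pairs q) (hr : r ∈ pairs q) (h : pe x p = pe x r) : p = r := by
  rw [mem_pairs] at hp hr
  unfold pe at h
  by_cases h1 : x p.1 < x p.2 <;> by_cases h2 : x r.1 < x r.2
  · rw [if_pos h1, if_pos h2, Prod.mk.injEq] at h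
    exact Prod.ext (hx h.1) (hx h.2)
  · rw [if_pos h1, if_neg h2, Prod.mk.injEq] at h
    have h3 := hx h.1
    have h4 := hx h.2
    rw [h3, h4] at hp
    exact absurd hr hp.asymm
  · rw [if_neg h1, if_pos h2, Prod.mk.injEq] at h
    have h3 := hx h.1
    have h4 := hx h.2
    rw [h3, h4] at hp
    exact absurd hr hp.asymm
  · rw [if_neg h1, if_neg h2, Prod.mk.injEq] at h
    exact Prod.ext (hx h.2) (hx h.1)

theorem pe_adj (x : Fin q → Fin n) (T : SimpleGraph (Fin n)) (p : Fin q × Fin q) :
    T.Adj (pe x p).1 (pe x p).2 ↔ T.Adj (x p.1) (x p.2) := by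
  unfold pe
  by_cases h : x p.1 < x p.2
  · rw [if_pos h]
  · rw [if_neg h]
    exact T.adj_comm _ _

theorem comap_eq_iff (x : Fin q → Fin n) (T : SimpleGraph (Fin n)) (H : SimpleGraph (Fin q)) :
    T.comap x = H ↔ ∀ p ∈ pairs q, (T.Adj (pe x p).1 (pe x p).2 ↔ H.Adj p.1 p.2) := by
  constructor
  · rintro rfl p _
    rw [pe_adj]
    rfl
  · intro h
    ext u v
    rw [SimpleGraph.comap_adj]
    rcases lt_trichotomy u v with h1 | h1 | h1
    · have h2 := h (u, v) (mem_pairs.2 h1)
      rw [pe_adj] at h2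
      exact h2
    · subst h1
      exact ⟨fun h2 => (T.loopless.irrefl _ h2).elim, fun h2 => (H.loopless.irrefl _ h2).elim⟩
    · have h2 := h (v, u) (mem_pairs.2 h1)
      rw [pe_adj] at h2
      rw [T.adj_comm, H.adj_comm]
      exact h2

/-- indicator -/
noncomputable def ind (P : Prop) : ℝ := if P then 1 else 0

theorem ind_of {P : Prop} (h : P) : ind P = 1 := if_pos h

theorem ind_not {P : Prop} (h : ¬ P) : ind P = 0 := if_neg h

theorem prod_ind {ι : Type} (s : Finset ι) (P : ι → Prop) :
    ∏ i ∈ s, ind (P i) = ind (∀ i ∈ s, P i) := by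
  by_cases h : ∀ i ∈ s, P i
  · rw [ind_of h]
    exact Finset.prod_eq_one fun i hi => ind_of (h i hi)
  · rw [ind_not h]
    push Not at h
    obtain ⟨i, hi, hi'⟩ := h
    exact Finset.prod_eq_zero hi (ind_not hi')

/-- the condition at the pair `p` -/
def Cnd (x : Fin q → Fin n) (H : SimpleGraph (Fin q)) (p : Fin n × Fin n) (b : Bool) : Prop :=
  ∀ r ∈ pairs q, pe x r = p → (b = true ↔ H.Adj r.1 r.2)

/-- the factor at the pair `p` -/
noncomputable def fac (x : Fin q → Fin n) (H : SimpleGraph (Fin q)) (σ : ℝ)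
    (p : Fin n × Fin n) (b : Bool) : ℝ :=
  (if b = true then σ else 1 - σ) * ind (Cnd x H p b)

/-- the probability that the sampled graph is `H` -/
theorem prob_comap {x : Fin q → Fin n} (hx : Function.Injective x) (σ : ℝ)
    (H : SimpleGraph (Fin q)) :
    ∑ T : SimpleGraph (Fin n), toggleProb σ T * ind (T.comap x = H) = toggleProb σ H := by
  have e1 : ∀ T : SimpleGraph (Fin n), toggleProb σ T * ind (T.comap x = H) =
      ∏ p ∈ pairs n, fac x H σ p (decide (T.Adj p.1 p.2)) := by
    intro T
    unfold fac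
    rw [Finset.prod_mul_distrib, ← toggleProb_eq, prod_ind]
    congr 2
    rw [comap_eq_iff]
    refine propext ⟨?_, ?_⟩
    · intro h p _ r hr hrp
      rw [← h r hr, hrp, decide_eq_true_iff]
    · intro h r hr
      rw [← h (pe x r) (pe_mem hx hr) r hr rfl, decide_eq_true_iff]
  rw [Finset.sum_congr rfl fun T _ => e1 T, sum_prod_pairs]
  have e2 : ∏ p ∈ (pairs q).image (pe x), (fac x H σ p true + fac x H σ p false) =
      ∏ p ∈ pairs n, (fac x H σ p true + fac x H σ p false) := by
    refine Finset.prod_subset ?_ ?_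
    · intro p hp
      obtain ⟨r, hr, rfl⟩ := Finset.mem_image.1 hp
      exact pe_mem hx hr
    · intro p _ hp
      have h1 : ∀ b : Bool, Cnd x H p b :=
        fun b r hr hrp => absurd (Finset.mem_image.2 ⟨r, hr, hrp⟩) hp
      unfold fac
      rw [ind_of (h1 true), ind_of (h1 false)]
      simp
  rw [← e2, Finset.prod_image (fun a ha b hb hab => pe_inj hx ha hb hab)]
  unfold toggleProb
  refine Finset.prod_congr rfl fun r hr => ?_
  by_cases h : H.Adj r.1 r.2
  · have h1 : Cnd x H (pe x r) true := by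
      intro s hs hsr
      rw [pe_inj hx hs hr hsr]
      exact ⟨fun _ => h, fun _ => rfl⟩
    have h2 : ¬ Cnd x H (pe x r) false := by
      intro h3
      exact Bool.noConfusion ((h3 r hr rfl).2 h)
    unfold fac
    rw [ind_of h1, ind_not h2, if_pos h]
    simp
  · have h1 : ¬ Cnd x H (pe x r) true := by
      intro h3
      exact h ((h3 r hr rfl).1 rfl)
    have h2 : Cnd x H (pe x r) false := by
      intro s hs hsr
      rw [pe_inj hx hs hr hsr]
      exact ⟨fun h4 => Bool.noConfusion h4, fun h4 => absurd h4 h⟩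
    unfold fac
    rw [ind_not h1, ind_of h2, if_neg h]
    simp

theorem cmp_aux {x : Fin q → Fin n} (hx : Function.Injective x) (σ : ℝ)
    (f : SimpleGraph (Fin q) → ℝ) :
    ∑ T : SimpleGraph (Fin n), toggleProb σ T * f (T.comap x) =
      ∑ H : SimpleGraph (Fin q), toggleProb σ H * f H := by
  have e1 : ∀ T : SimpleGraph (Fin n), toggleProb σ T * f (T.comap x) =
      ∑ H : SimpleGraph (Fin q), toggleProb σ T * ind (T.comap x = H) * f H := by
    intro T
    rw [Finset.sum_eq_single (T.comap x)]
    · rw [ind_of rfl, mul_one]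
    · intro H _ hH
      rw [ind_not hH.symm]
      simp
    · intro h
      exact absurd (Finset.mem_univ _) h
  rw [Finset.sum_congr rfl fun T _ => e1 T, Finset.sum_comm]
  refine Finset.sum_congr rfl fun H _ => ?_
  rw [← Finset.sum_mul, prob_comap hx]

end

/-- module CMP -/
theorem cmp : CmpStmt := by
  intro n q x hx σ f
  classical
  have h := cmp_aux hx σ f
  convert h

end Pool.Agent.UT.H50
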