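import Pool.Agent.Helper87_UT.Stmts

/-!
# UT, module INJ: few samples have a repetition
-/

set_option autoImplicit false

namespace Pool.Agent.UT.H50

open Finset

section
open Classical

theorem card_eq_mul_le (n q : ℕ) (i j : Fin q) (hij : i ≠ j) :
    (univ.filter fun x : Fin q → Fin n => x i = x j).card * n ≤ n ^ q := by
  have h1 : ((univ.filter fun x : Fin q → Fin n => x i = x j) ×ˢ (univ : Finset (Fin n))).card ≤
      (univ : Finset (Fin q → Fin n)).card := by
    refine Finset.card_le_card_of_injOn (fun z => Function.update z.1 j z.2)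
      (fun _ _ => Finset.mem_coe.2 (Finset.mem_univ _)) ?_
    rintro ⟨x, a⟩ hx ⟨y, b⟩ hy hxy
    have hx' : x i = x j := by
      have := (Finset.mem_product.1 (Finset.mem_coe.1 hx)).1
      exact (Finset.mem_filter.1 this).2
    have hy' : y i = y j := by
      have := (Finset.mem_product.1 (Finset.mem_coe.1 hy)).1
      exact (Finset.mem_filter.1 this).2
    have h0 : ∀ k, Function.update x j a k = Function.update y j b k := fun k => congrFun hxy k
    have hab : a = b := by
      have := h0 j
      rwa [Function.update_self, Function.update_self] at this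
    have hne : ∀ k, k ≠ j → x k = y k := by
      intro k hk
      have := h0 k
      rwa [Function.update_of_ne hk, Function.update_of_ne hk] at this
    have hxy' : x = y := by
      funext k
      by_cases hk : k = j
      · rw [hk, ← hx', ← hy']
        exact hne i hij
      · exact hne k hk
    rw [hxy', hab]
  rw [Finset.card_product, Finset.card_univ, Fintype.card_fin, Finset.card_univ,
    Fintype.card_fun, Fintype.card_fin, Fintype.card_fin] at h1
  exact h1

theorem inj_nat (n q : ℕ) :
    n * (univ.filter fun x : Fin q → Fin n => ¬ Function.Injective x).card ≤ q ^ 2 * n ^ q := by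
  have h1 : (univ.filter fun x : Fin q → Fin n => ¬ Function.Injective x) ⊆
      ((univ : Finset (Fin q × Fin q)).filter fun p => p.1 ≠ p.2).biUnion fun p =>
        univ.filter fun x : Fin q → Fin n => x p.1 = x p.2 := by
    intro x hx
    have hx' := (Finset.mem_filter.1 hx).2
    rw [Function.Injective] at hx'
    push Not at hx'
    obtain ⟨i, j, hij, hne⟩ := hx'
    refine Finset.mem_biUnion.2 ⟨(i, j), ?_, ?_⟩
    · simpa using hne
    · simpa using hij
  have h2 := (Finset.card_le_card h1).trans Finset.card_biUnion_le
  calc n * (univ.filter fun x : Fin q → Fin n => ¬ Function.Injective x).card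
      ≤ n * ∑ p ∈ (univ : Finset (Fin q × Fin q)).filter (fun p => p.1 ≠ p.2),
          (univ.filter fun x : Fin q → Fin n => x p.1 = x p.2).card := Nat.mul_le_mul_left _ h2
    _ = ∑ p ∈ (univ : Finset (Fin q × Fin q)).filter (fun p => p.1 ≠ p.2),
          (univ.filter fun x : Fin q → Fin n => x p.1 = x p.2).card * n := by
        rw [Finset.mul_sum]
        exact Finset.sum_congr rfl fun p _ => mul_comm _ _
    _ ≤ ∑ p ∈ (univ : Finset (Fin q × Fin q)).filter (fun p => p.1 ≠ p.2), n ^ q :=
        Finset.sum_le_sum fun p hp => card_eq_mul_le n q p.1 p.2 (Finset.mem_filter.1 hp).2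
    _ = ((univ : Finset (Fin q × Fin q)).filter (fun p => p.1 ≠ p.2)).card * n ^ q := by
        rw [Finset.sum_const, smul_eq_mul]
    _ ≤ q ^ 2 * n ^ q := by
        refine Nat.mul_le_mul_right _ ?_
        calc _ ≤ (univ : Finset (Fin q × Fin q)).card := Finset.card_le_card (Finset.filter_subset _ _)
          _ = q ^ 2 := by rw [Finset.card_univ, Fintype.card_prod, Fintype.card_fin, sq]

end

/-- module INJ -/
theorem inj : InjStmt := by
  intro n q
  classical
  have h := inj_nat n q
  have h2 : ((n * (univ.filter fun x : Fin q → Fin n => ¬ Function.Injective x).card : ℕ) : ℝ) ≤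
      ((q ^ 2 * n ^ q : ℕ) : ℝ) := by
    exact_mod_cast h
  push_cast at h2
  convert h2

end Pool.Agent.UT.H50
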